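import Pool.Agent.Lib_helper87.FAM.T7
import Pool.Agent.Lib_helper76.FAM.Thr
import Pool.Agent.Lib_helper76.UEG.TAB

set_option autoImplicit false
set_option linter.unusedSectionVars false

/-!
# Points of order seven: the classes are quotients of lines through a point of the curve
-/

open scoped TensorProduct

namespace Pool.Agent.FK4

open Pool.Agent.MK4 WeierstrassCurve.Affine
open Pool.Agent.TN (Wt)
open Pool.Agent.UEG (P0)
open K7 UE7

section thr

variable {k : Type*} [Field k] {W : WeierstrassCurve.Affine k} {F : Type*} [Field F] [Algebra k F]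
  {X Y : F}

lemma thr_lin {p q s e : k} (h : W.Nonsingular p q) (he : q = s * p + e) :
    Thr X Y (.some p q h : W.Point) (Y - algebraMap k F s * X - algebraMap k F e) := by
  have := thr_line (X := X) (Y := Y) h he
  rwa [← sub_sub] at this

end thr

section N7

variable {k : Type*} [Field k] [DecidableEq k] {F : Type*} [Field F] [Algebra k F] {x y : F} {t : k}

/-- `x(z + iP)` is a quotient of lines through a multiple of `P` -/
lemma exists_LTS (hb : bb t ≠ 0) (hO : addOrderOf (P0 (cc t) hb) = 7)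
    (h : Generic (Wt (bb t) (cc t)) x y) (i : Fin 7) :
    ∃ (S : (Wt (bb t) (cc t)).Point) (L T : F), Thr x y S L ∧ Thr x y S T ∧
      Supp (AddSubgroup.zmultiples (P0 (cc t) hb)) x y T ∧ XF t x y i = L / T := by
  have hs : ∀ f, Supp (AddSubgroup.zmultiples (P0 (cc t) hb)) x y f ↔ Is7 t x y f := supp7 hb hO h
  have hg := gen7 h
  have h0 := ne_x hg
  have h1 := ne_xb hg
  have h2 := ne_xc hg
  have h3 := ne_y hg
  have h4 := ne_ycx hg
  have h5 := ne_ytx hg
  have h4' : y - x * algebraMap k F (cc t) ≠ 0 := by rw [mul_comm]; exact h4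
  have h5' : y - x * algebraMap k F (t - 1) ≠ 0 := by rw [mul_comm]; exact h5
  have ht := t_ne hb
  have hc : cc t ≠ 0 := cc_ne ht (t_ne_one hb)
  have hd : bb t = t * cc t := by unfold bb cc; ring
  obtain ⟨n1, -⟩ := UEG.inH_one (c := cc t) hb
  obtain ⟨n2, -⟩ := UEG.inH_two (c := cc t) hb
  obtain ⟨n3, -⟩ := UEG.inH_three (c := cc t) hb
  obtain ⟨n4, -⟩ := UEG.inH_four (c := cc t) hb hc hd
  obtain ⟨n5, -⟩ := UEG.inH_neg (UEG.inH_two (c := cc t) hb)
  obtain ⟨n6, -⟩ := UEG.inH_neg (UEG.inH_one (c := cc t) hb)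
  have z : ∀ f : F, f = f - algebraMap k F 0 := fun f => by rw [map_zero, sub_zero]
  fin_cases i
  · refine ⟨0, x, 1, thr_X, thr_one, supp_one, ?_⟩
    show XF t x y 0 = x / 1
    rw [XF_zero, div_one]
  · refine ⟨.some _ _ n2, _, _, (thr_vert n2).smul (bb t), thr_lin (s := cc t - 1) (e := bb t) n2 ?_,
      (hs _).mpr (is7_662 hg), ?_⟩
    · ring
    · show XF t x y 1 = _
      rw [l662 hg, XF_one hg]
      field_simp
  · refine ⟨.some _ _ n4, _, _, (thr_lin (s := cc t - t) (e := bb t) n4 ?_).smul (bb t),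
      thr_lin (s := -t) (e := t * bb t) n4 ?_, ?_, ?_⟩
    · unfold bb cc; ring
    · unfold bb cc; ring
    · have := is7_554 hg
      rw [map_neg, neg_mul, sub_neg_eq_add]
      exact (hs _).mpr this
    · show XF t x y 2 = _
      rw [map_neg, neg_mul, sub_neg_eq_add, l446 hg, l554 hg, XF_two hg]
      field_simp
  · refine ⟨.some _ _ n6, _, _, (thr_lin (s := -1) (e := bb t) n6 ?_).smul (cc t),
      thr_lin (s := cc t - t) (e := bb t) n6 ?_, (hs _).mpr (is7_446 hg), ?_⟩
    · ring
    · ring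
    · show XF t x y 3 = _
      rw [map_neg, map_one, neg_one_mul, sub_neg_eq_add, l446 hg, l356 hg, XF_three hg]
      field_simp
  · have l4 : Thr x y (.some _ _ n1 : (Wt (bb t) (cc t)).Point) (y - algebraMap k F (cc t) * x) := by
      have := thr_lin (X := x) (Y := y) (s := cc t) (e := 0) n1 (by ring)
      rwa [map_zero, sub_zero] at this
    have l5 : Thr x y (.some _ _ n1 : (Wt (bb t) (cc t)).Point) (y - algebraMap k F (t - 1) * x) := by
      have := thr_lin (X := x) (Y := y) (s := t - 1) (e := 0) n1 (by ring)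
      rwa [map_zero, sub_zero] at this
    refine ⟨_, _, _, l4.smul (cc t), l5, (hs _).mpr is7_ytx, ?_⟩
    show XF t x y 4 = _
    rw [XF_four hg]
  · have l5 : Thr x y (.some _ _ n3 : (Wt (bb t) (cc t)).Point) (y - algebraMap k F (t - 1) * x) := by
      have := thr_lin (X := x) (Y := y) (s := t - 1) (e := 0) n3 (by unfold bb cc; ring)
      rwa [map_zero, sub_zero] at this
    refine ⟨_, _, _, l5.smul (bb t), thr_lin (s := t ^ 2 - 1) (e := bb t * (1 - t)) n3 ?_,
      (hs _).mpr (is7_223 hg), ?_⟩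
    · unfold bb cc; ring
    · show XF t x y 5 = _
      rw [l223 hg, XF_five hg]
      field_simp
  · have l3 : Thr x y (.some _ _ n5 : (Wt (bb t) (cc t)).Point) y := by
      have := thr_lin (X := x) (Y := y) (s := 0) (e := 0) n5 (by ring)
      rwa [map_zero, sub_zero, zero_mul, sub_zero] at this
    refine ⟨_, _, _, ((thr_vert n5).smul (bb t)).neg, l3, (hs _).mpr is7_y, ?_⟩
    show XF t x y 6 = _
    rw [XF_six hg]

/-- the 28 classes are quotients of lines through a point of the curve -/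
lemma lineS7 [CharZero k] (hb : bb t ≠ 0) (hO : addOrderOf (P0 (cc t) hb) = 7)
    (h : Generic (Wt (bb t) (cc t)) x y) (i : Fin 7) (r : Fin 4) :
    LineS (AddSubgroup.zmultiples (P0 (cc t) hb)) x y (TT t x y i r) := by
  have hs : ∀ f, Supp (AddSubgroup.zmultiples (P0 (cc t) hb)) x y f ↔ Is7 t x y f := supp7 hb hO h
  have ht := t_ne hb
  have ht1 := t_ne_one hb
  have hc : cc t ≠ 0 := cc_ne ht ht1
  have hbc : bb t ≠ cc t := by
    intro h'
    have : t * (t - 1) ^ 2 = 0 := by unfold bb cc at h'; linear_combination h'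
    exact mul_ne_zero ht (pow_ne_zero 2 (sub_ne_zero.mpr ht1)) this
  obtain ⟨S, L, T, hL, hT, sT, e⟩ := exists_LTS hb hO h i
  obtain ⟨s0, sb, sc⟩ := is7_X ht ht1 (gen7 h) i
  rw [← hs] at s0 sb sc
  fin_cases r
  · have s0' : Supp (AddSubgroup.zmultiples (P0 (cc t) hb)) x y
        (XF t x y i - algebraMap k F 0) := by rw [map_zero, sub_zero]; exact s0
    have := LineS.of_three hL hT sT e (Ne.symm hb) hbc (Ne.symm hc) s0' sb sc
    rw [map_zero, sub_zero, sub_zero, map_sub] at this
    exact this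
  · have hT0 := sT.1
    have := LineS.of_two (Z := XF t x y i - algebraMap k F (bb t))
      (L := L - algebraMap k F (bb t) * T) (hL.sub (hT.smul _)) hT sT
      (by rw [e]; field_simp) (a := cc t - bb t) (sub_ne_zero.mpr (Ne.symm hbc)) sb
      (by
        have e1 : XF t x y i - algebraMap k F (bb t) - algebraMap k F (cc t - bb t) =
          XF t x y i - algebraMap k F (cc t) := by rw [map_sub]; ring
        rw [e1]; exact sc)
    rw [map_sub] at this
    exact this
  · exact LineS.of_two hL hT sT e hc s0 sc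
  · exact LineS.of_two hL hT sT e hb s0 sb

/-- **the unit equation for a point of order seven** -/
theorem unitEqS7 [CharZero k] (hb : bb t ≠ 0) (hind : Indep t (t - 1))
    (hO : addOrderOf (P0 (cc t) hb) = 7) (h : Generic (Wt (bb t) (cc t)) x y) :
    UnitEqS (AddSubgroup.zmultiples (P0 (cc t) hb)) x y := by
  refine unitEqS_of fun f h1f h2f => ?_
  rw [supp7 hb hO h] at h1f h2f
  obtain ⟨c₀, n, h0, e0⟩ := h1f
  obtain ⟨c₁, n', h1, e1⟩ := h2f
  have hu : algebraMap k F c₀ * M7 t x y n + algebraMap k F c₁ * M7 t x y n' = 1 := by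
    rw [← e0, ← e1]; ring
  rcases unit_eq7' (t_ne hb) (t_ne_one hb) hind (gen7 h) h0 h1 hu with ⟨s, hs⟩ | ⟨i, r, hr⟩
  · exact Or.inl ⟨s, by rw [e0, hs]⟩
  · rw [← e0] at hr
    exact Or.inr ((lineS7 hb hO h i r).orb hr)

end N7

end Pool.Agent.FK4
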